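import Pool.Agent.H6.LQ.Fin

/-!
# MP_63a4b3_lc: diagonalization in `O(n³ log²(n/δ))` operations with `O(log(n/δ))` bits of precision

The machine model (programs on registers, adversarial relative errors, counting of operations and of
comparisons), the algorithm `mainP` (an explicit program) and the initial registers `env0` are in
`Pool/Agent/H6/LQ/Model.lean`; `bOf`, `LL`, `outV`, `outD` are in `Pool/Agent/H6/LQ/Stmt.lean`.
-/

set_option autoImplicit false

open H6LP MeasureTheory
open scoped Matrix.Norms.L2Operator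

namespace Pool.Agent.Results.MP_63a4b3_lc.LogPrecision

/-- **Diagonalization with logarithmic precision.**  For every `n ≥ 1` and `0 < δ < 1`:
the explicit program `mainP n (bOf δ)` makes on every path at most `10^15 n³ L²` operations, among them at most
`10^7 n L²` comparisons, where `L = 1 + log₂ (n/δ)`; and for every unit roundoff `0 ≤ u ≤ 2^(-1200 L)` and every
`A` with operator norm `‖A‖ ≤ 1` there is a measurable set `S` of samples in the cube `[0,1]^(2n²+1)` of measure
at least `1 - δ/n` such that for all samples in `S` and all relative errors of size at most `u`, chosen by an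
adversary, the computed `V` is invertible and `‖A - V D V⁻¹‖ ≤ δ`. -/
theorem result (n : ℕ) (hn : 1 ≤ n) (δ : ℝ) (hδ : 0 < δ) (hδ1 : δ < 1) :
    (∃ c d : ℕ, Bdd (mainP n (bOf δ)) c d ∧ (c : ℝ) ≤ 10 ^ 15 * n ^ 3 * LL n δ ^ 2 ∧
      (d : ℝ) ≤ 10 ^ 7 * n * LL n δ ^ 2) ∧
    ∀ u : ℝ, 0 ≤ u → u ≤ (2 : ℝ) ^ (-(1200 * LL n δ)) →
      ∀ A : Matrix (Fin n) (Fin n) ℂ, ‖A‖ ≤ 1 →
        ∃ S : Set (Fin (2 * n ^ 2 + 1) → ℝ), MeasurableSet S ∧
          (∀ g ∈ S, ∀ i, g i ∈ Set.Icc (0 : ℝ) 1) ∧
          ENNReal.ofReal (1 - δ / n) ≤ volume S ∧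
          ∀ g ∈ S, ∀ ad : Adv, (∀ t, ‖ad.e t‖ ≤ u) →
            IsUnit (outV ad n δ A g) ∧
              ‖A - outV ad n δ A g * Matrix.diagonal (outD ad n δ A g) * (outV ad n δ A g)⁻¹‖ ≤ δ :=
  result_aux n hn δ hδ hδ1

end Pool.Agent.Results.MP_63a4b3_lc.LogPrecision
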